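import Pool.Agent.H84.ND.Targets3
import Pool.Agent.H60.SM.HOM
import Pool.Agent.H39.ND.GPN

/-!
# (SQF) a plane curve whose singular points are nodes is reduced
-/

set_option autoImplicit false

namespace Pool.Agent.H99.ND

open MvPolynomial SC Pool.Agent.H27.LV Pool.Agent.H84.SM Pool.Agent.H84.ND

/-- a linear form in three variables has zeros which are not multiples of a given vector -/
lemma exists_not_mul {k : Type} [Field k] (g s : Fin 3 → k) :
    ∃ y : Fin 3 → k, ∑ j, g j * y j = 0 ∧ ∀ c : k, y ≠ c • s := by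
  by_contra hno
  push Not at hno
  let φ : (Fin 3 → k) →ₗ[k] k := ∑ j, g j • LinearMap.proj j
  have hφ : ∀ y, φ y = ∑ j, g j * y j := by
    intro y
    simp only [φ, LinearMap.sum_apply, LinearMap.smul_apply, LinearMap.proj_apply, smul_eq_mul]
  have h1 : LinearMap.ker φ ≤ Submodule.span k {s} := by
    intro y hy
    rw [LinearMap.mem_ker, hφ] at hy
    obtain ⟨c, hc⟩ := hno y hy
    rw [hc]
    exact Submodule.smul_mem _ _ (Submodule.mem_span_singleton_self s)
  have h2 := LinearMap.finrank_range_add_finrank_ker φ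
  have h3 : Module.finrank k (LinearMap.range φ) ≤ 1 := by
    have h := Submodule.finrank_le (LinearMap.range φ)
    rwa [Module.finrank_self] at h
  have h4 : Module.finrank k (LinearMap.ker φ) ≤ Module.finrank k (Submodule.span k {s}) :=
    Submodule.finrank_mono h1
  have h5 : Module.finrank k (Submodule.span k {s}) ≤ 1 := by
    have h := finrank_span_le_card (R := k) ({s} : Set (Fin 3 → k))
    simpa using h
  rw [Module.finrank_fin_fun] at h2
  omega

theorem pf_SQF : T_SQF := by
  intro k _ _ _ G d hd hG hn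
  have hG0 : G ≠ 0 := by
    rintro rfl
    have hs : Sing (0 : MvPolynomial (Fin 3) k) (Pi.single 0 1) := by
      refine ⟨fun h => ?_, fun i => by rw [map_zero, map_zero]⟩
      have := congrFun h 0
      simp at this
    obtain ⟨c, hc⟩ := (hn _ hs).ker (Pi.single 1 1) (by
      intro i
      refine Finset.sum_eq_zero fun j _ => ?_
      rw [map_zero, map_zero, map_zero, zero_mul])
    have := congrFun hc 1
    simp at this
  rintro H ⟨L, hL⟩
  by_contra hu
  have hHL : H * (H * L) ≠ 0 := by rw [← mul_assoc, ← hL]; exact hG0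
  have hH0 : H ≠ 0 := left_ne_zero_of_mul hHL
  obtain ⟨n1, n2, _, hH, _⟩ := Pool.Agent.H60.SM.wh_of_mul (1 : Fin 3 → ℕ) hHL
    (by rw [← mul_assoc, ← hL]; exact hG)
  have hH' : H.IsHomogeneous n1 := hH
  have hn1 : n1 ≠ 0 := by
    rintro rfl
    have h1 := hH'.totalDegree hH0
    have h2 := totalDegree_eq_zero_iff_eq_C.1 h1
    apply hu
    rw [h2]
    refine (isUnit_iff_ne_zero.2 fun h3 => hH0 ?_).map C
    rw [h2, h3, C_0]
  obtain ⟨s, hs0, hsH⟩ : ∃ s : Fin 3 → k, s ≠ 0 ∧ eval s H = 0 := by
    have h1 := Pool.Agent.H39.ND.exists_zero (G := H * H) (d := n1 + n1) (by omega)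
      (hH'.mul hH') (i := 0) (j := 1) (by decide)
    rcases h1 with ⟨t, ht⟩ | ⟨t, ht⟩
    · refine ⟨_, fun h => ?_, mul_self_eq_zero.1 (by rw [← map_mul]; exact ht)⟩
      have := congrFun h 1
      simp [Pool.Agent.H39.ND.pt] at this
    · refine ⟨_, fun h => ?_, mul_self_eq_zero.1 (by rw [← map_mul]; exact ht)⟩
      have := congrFun h 0
      simp [Pool.Agent.H39.ND.pt] at this
  have hd1 : ∀ i, eval s (pderiv i G) = 0 := by
    intro i
    rw [hL]
    simp only [Derivation.leibniz, map_add, smul_eq_mul, map_mul, hsH]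
    ring
  have hd2 : ∀ i j, eval s (pderiv i (pderiv j G)) =
      2 * eval s L * eval s (pderiv i H) * eval s (pderiv j H) := by
    intro i j
    rw [hL]
    simp only [Derivation.leibniz, map_add, smul_eq_mul, map_mul, hsH]
    ring
  obtain ⟨y, hy, hy'⟩ := exists_not_mul (fun j => eval s (pderiv j H)) s
  obtain ⟨c, hc⟩ := (hn s ⟨hs0, hd1⟩).ker y (by
    intro i
    have h1 : ∑ j, eval s (pderiv i (pderiv j G)) * y j =
        (2 * eval s L * eval s (pderiv i H)) * ∑ j, eval s (pderiv j H) * y j := by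
      rw [Finset.mul_sum]
      refine Finset.sum_congr rfl fun j _ => ?_
      rw [hd2]
      ring
    rw [h1, hy, mul_zero])
  exact hy' c hc

end Pool.Agent.H99.ND
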