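import Pool.Agent.H95.INS.Defs
import Pool.Agent.H97.NF.Defs
import Pool.Agent.H22.LPP.TargetsB

/-!
# Part D of MP_57ddd5_pr: norms on annuli, chain over scales. Definitions

Scale `k`: time `64 ^ k`, space `16 ^ k`, weight `4 ^ k`. The centre is the origin
(use `shiftE` for other centres).
-/

open MeasureTheory ProbabilityTheory
open scoped ENNReal

namespace Pool.Agent.H99.ND

open Pool.Agent.H99.NS Pool.Agent.H22.LPP Pool.Agent.H95.INS

/-- Constants of the multi-scale analysis. -/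
structure Cst where
  /-- parameter of the geometric law -/
  q : ℝ
  /-- threshold of the norms -/
  K0 : ℝ
  /-- regularity of the old environment, a multiple of `K0 ^ 2` -/
  K : ℝ
  /-- positions of the old geodesic -/
  B : ℝ
  /-- strength of the highways -/
  H : ℝ
  /-- crude upper bound -/
  Y : ℝ
  /-- half width of the box -/
  A : ℤ

/-- The data of the insertion lemma at scale `k`, lateral cut-off `Xc * 16 ^ k`. -/
noncomputable def dk (c : Cst) (Xc : ℤ) (k : ℕ) : Dat :=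
  dat c.q k c.A c.K c.B c.H c.Y (Xc * 16 ^ k)

/-- Half of the time scale `64 ^ i` (for `i ≥ 1`). -/
def lv (i : ℕ) : ℤ := 32 * 64 ^ (i - 1)

/-- Distance of two scales. -/
def ds (k i : ℕ) : ℕ := max k i - min k i

/-- Allowance at label `i` for the goodness of scale `k`, at lateral distance `D`. -/
noncomputable def al (K0 : ℝ) (k i : ℕ) (D : ℝ) : ℝ :=
  K0 * (6 / 5) ^ ds k i * 4 ^ i * (1 + D / 16 ^ max k i)

/-- The lateral cut-off. -/
def cutX (Xc : ℤ) (k i : ℕ) : ℤ := Xc * 16 ^ max k i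

/-- Upper bounds on the slab `[s,t]` of label `i` (soft parabola). -/
def NU (q K0 : ℝ) (Xc : ℤ) (k i : ℕ) (s t : ℤ) (ω : Env) : Prop :=
  ∀ s' t' g, s ≤ s' → s' ≤ t' → t' ≤ t → IsPath s' t' g → |g s'| ≤ cutX Xc k i →
    |g t'| ≤ cutX Xc k i →
    wt ω s' t' g ≤ sp q (64 ^ i / 1000) s' t' g + al K0 k i (max |(g s' : ℝ)| |(g t' : ℝ)|)

/-- Lower bounds between the two levels of the slab `[s,t]` of label `i`. -/
def NL (q K0 : ℝ) (Xc : ℤ) (k i : ℕ) (s t : ℤ) (ω : Env) : Prop :=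
  ∀ x y : ℤ, |x| ≤ cutX Xc k i → |y| ≤ cutX Xc k i → |x - y| ≤ 4 * Xc * 16 ^ i →
    Reach (s, x) (t, y) →
    par q (s, x) (t, y) - al K0 k i (max |(x : ℝ)| |(y : ℝ)|) ≤ T ω (s, x) (t, y)

/-- Interior lower bounds in the core slab `[-lv a, lv a]`, vertically down and up. -/
def NI (q K0 : ℝ) (Xc : ℤ) (k a : ℕ) (ω : Env) : Prop :=
  ∀ u : Site, -lv a ≤ u.1 → u.1 ≤ lv a → |u.2| ≤ cutX Xc k a →
    (∃ y, |y - u.2| ≤ 1 ∧ Reach (-lv a, y) u ∧
      mu q * ((u.1 + lv a : ℤ) : ℝ) - al K0 k a |(u.2 : ℝ)| ≤ T ω (-lv a, y) u) ∧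
    (∃ y, |y - u.2| ≤ 1 ∧ Reach u (lv a, y) ∧
      mu q * ((lv a - u.1 : ℤ) : ℝ) - al K0 k a |(u.2 : ℝ)| ≤ T ω u (lv a, y))

/-- The norm event of label `i` for the goodness of scale `k`; `a` is the base scale, the slabs
of label `i` are `[-lv (i+1), -lv i]`, `[lv i, lv (i+1)]` and for `i = a` also
`[-lv a, lv a]`. -/
structure Nm (q K0 : ℝ) (Xc : ℤ) (a k i : ℕ) (ω : Env) : Prop where
  um : NU q K0 Xc k i (-lv (i + 1)) (-lv i) ω
  up : NU q K0 Xc k i (lv i) (lv (i + 1)) ω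
  lm : NL q K0 Xc k i (-lv (i + 1)) (-lv i) ω
  lp : NL q K0 Xc k i (lv i) (lv (i + 1)) ω
  uc : i = a → NU q K0 Xc k a (-lv a) (lv a) ω
  lc : i = a → NL q K0 Xc k a (-lv a) (lv a) ω
  ni : i = a → NI q K0 Xc k a ω

/-- All the norms of the labels between `a` and `I`, for the goodness of scale `k`. -/
def GN (c : Cst) (Xc : ℤ) (a I k : ℕ) (ω : Env) : Prop :=
  ∀ i, a ≤ i → i ≤ I → Nm c.q c.K0 Xc a k i ω

/-- Goodness of scale `k`. -/
def good (c : Cst) (Xc : ℤ) (a I k : ℕ) (ω : Env) : Prop :=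
  GN c Xc a I k ω ∧ FC (dk c Xc k) ω

/-- `g` visits the tile of scale `a`. -/
def Touch (a : ℕ) (g : ℤ → ℤ) : Prop := ∃ t, -lv a ≤ t ∧ t ≤ lv a ∧ |g t| ≤ 16 ^ a

/-- Passage time restricted to the paths inside the set `R` (all sites of the path, the starting
point included); `0` if there is no such path. -/
noncomputable def TR (R : Set Site) (ω : Env) (u v : Site) : ℝ :=
  sSup {x | ∃ g : ℤ → ℤ, Conn u v g ∧ (∀ r, u.1 ≤ r → r ≤ v.1 → (r, g r) ∈ R) ∧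
    x = wt ω u.1 v.1 g}

/-- The strip of half width `X`. -/
def strip (X : ℤ) : Set Site := {x | |x.2| < X}

/-- Upper violation inside the box of scale `k`, on the slab `[s,t]` of label `i`, for the
goodness of scale `j`. -/
def VU (c : Cst) (k j i : ℕ) (s t : ℤ) (ω : Env) : Prop :=
  ∃ s' t' g, s ≤ s' ∧ s' ≤ t' ∧ t' ≤ t ∧ IsPath s' t' g ∧
    (∀ r, s' ≤ r → r ≤ t' → |g r| < c.A * 16 ^ k) ∧ |g s'| < 16 ^ k ∧ |g t'| < 16 ^ k ∧
    sp c.q (64 ^ i / 1000) s' t' g + al c.K0 j i (max |(g s' : ℝ)| |(g t' : ℝ)|) < wt ω s' t' g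

/-- Lower violation inside the box. -/
def VL (c : Cst) (Xc : ℤ) (k j i : ℕ) (s t : ℤ) (ω : Env) : Prop :=
  ∃ x y : ℤ, |x| < 16 ^ k ∧ |y| < 16 ^ k ∧ |x - y| ≤ 4 * Xc * 16 ^ i ∧ Reach (s, x) (t, y) ∧
    TR (strip (c.A * 16 ^ k)) ω (s, x) (t, y) <
      par c.q (s, x) (t, y) - al c.K0 j i (max |(x : ℝ)| |(y : ℝ)|)

/-- Interior lower violation in the core slab inside the box. -/
def VI (c : Cst) (k j a : ℕ) (ω : Env) : Prop :=
  ∃ u : Site, -lv a ≤ u.1 ∧ u.1 ≤ lv a ∧ |u.2| < 16 ^ k ∧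
    ((∀ y, |y - u.2| ≤ 1 → Reach (-lv a, y) u →
      TR (strip (c.A * 16 ^ k)) ω (-lv a, y) u <
        mu c.q * ((u.1 + lv a : ℤ) : ℝ) - al c.K0 j a |(u.2 : ℝ)|) ∨
    (∀ y, |y - u.2| ≤ 1 → Reach u (lv a, y) →
      TR (strip (c.A * 16 ^ k)) ω u (lv a, y) <
        mu c.q * ((lv a - u.1 : ℤ) : ℝ) - al c.K0 j a |(u.2 : ℝ)|))

/-- The violation event of label `i` for scale `j` inside the box of scale `k`. -/
def VV (c : Cst) (Xc : ℤ) (a k j i : ℕ) (ω : Env) : Prop :=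
  VU c k j i (-lv (i + 1)) (-lv i) ω ∨ VU c k j i (lv i) (lv (i + 1)) ω ∨
  VL c Xc k j i (-lv (i + 1)) (-lv i) ω ∨ VL c Xc k j i (lv i) (lv (i + 1)) ω ∨
  (i = a ∧ (VU c k j a (-lv a) (lv a) ω ∨ VL c Xc k j a (-lv a) (lv a) ω ∨ VI c k j a ω))

end Pool.Agent.H99.ND
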